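import Pool.Agent.H48.HMS.Stm

/-!
# HMS, module GCD
-/

set_option autoImplicit false

namespace Pool.HMS

open TMLib Polynomial

namespace GCDaux

/-- Euclid step on natural numbers -/
def EN (p : ℕ × ℕ) : ℕ × ℕ := if p.2 = 0 then p else (p.2, p.1 % p.2)

/-- Euclid step on integers -/
def EZ (p : ℤ × ℤ) : ℤ × ℤ :=
  if p.2 = 0 then p else (p.2, p.1 + (-1) * (p.2 * (p.1 / p.2)))

lemma EZ_cast (p : ℕ × ℕ) : EZ ((p.1 : ℤ), (p.2 : ℤ)) = (((EN p).1 : ℤ), ((EN p).2 : ℤ)) := by
  unfold EZ EN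
  by_cases h : p.2 = 0
  · simp [h]
  · have h' : ((p.2 : ℤ)) ≠ 0 := by exact_mod_cast h
    simp only [h, h', if_false]
    rw [Prod.mk.injEq]
    refine ⟨rfl, ?_⟩
    push_cast
    rw [Int.emod_def]
    ring

lemma EZ_iter (n : ℕ) (p : ℕ × ℕ) :
    EZ^[n] ((p.1 : ℤ), (p.2 : ℤ)) = (((EN^[n] p).1 : ℤ), ((EN^[n] p).2 : ℤ)) := by
  induction n generalizing p with
  | zero => rfl
  | succ n ih => rw [Function.iterate_succ_apply, EZ_cast, ih, Function.iterate_succ_apply]

lemma EN_gcd (p : ℕ × ℕ) : Nat.gcd (EN p).1 (EN p).2 = Nat.gcd p.1 p.2 := by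
  unfold EN
  split_ifs with h
  · rfl
  · rw [Nat.gcd_comm, ← Nat.gcd_rec, Nat.gcd_comm]

lemma EN_iter_gcd (n : ℕ) (p : ℕ × ℕ) :
    Nat.gcd (EN^[n] p).1 (EN^[n] p).2 = Nat.gcd p.1 p.2 := by
  induction n generalizing p with
  | zero => rfl
  | succ n ih => rw [Function.iterate_succ_apply, ih, EN_gcd]

lemma EN_zero (n a : ℕ) : EN^[n] (a, 0) = (a, 0) := by
  induction n with
  | zero => rfl
  | succ n ih => rw [Function.iterate_succ_apply]; exact ih

lemma EN_done (k : ℕ) : ∀ a b : ℕ, b < 2 ^ k → (EN^[2 * k + 1] (a, b)).2 = 0 := by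
  induction k with
  | zero =>
    intro a b hb
    have : b = 0 := by simpa using hb
    subst this
    rw [EN_zero]
  | succ k ih =>
    intro a b hb
    by_cases h0 : b = 0
    · subst h0
      rw [EN_zero]
    have e : 2 * (k + 1) + 1 = (2 * k + 1) + 1 + 1 := by ring
    rw [e, Function.iterate_succ_apply, Function.iterate_succ_apply]
    have s1 : EN (a, b) = (b, a % b) := by simp [EN, h0]
    rw [s1]
    by_cases h1 : a % b = 0
    · have s2 : EN (b, a % b) = (b, 0) := by simp [EN, h1]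
      rw [s2, EN_zero]
    · have s2 : EN (b, a % b) = (a % b, b % (a % b)) := by simp [EN, h1]
      rw [s2]
      apply ih
      have hr : a % b < b := Nat.mod_lt _ (Nat.pos_of_ne_zero h0)
      have hr0 : 0 < a % b := Nat.pos_of_ne_zero h1
      have h2 : b % (a % b) < a % b := Nat.mod_lt _ hr0
      have h3 := Nat.div_add_mod b (a % b)
      have h4 : 1 ≤ b / (a % b) := (Nat.one_le_div_iff hr0).mpr hr.le
      have h5 : a % b ≤ (a % b) * (b / (a % b)) := Nat.le_mul_of_pos_right _ h4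
      have h6 : 2 * (b % (a % b)) < b := by omega
      rw [pow_succ] at hb
      omega

lemma EN_le (M : ℕ) (n : ℕ) (p : ℕ × ℕ) (h1 : p.1 ≤ M) (h2 : p.2 ≤ M) :
    (EN^[n] p).1 ≤ M ∧ (EN^[n] p).2 ≤ M := by
  induction n generalizing p with
  | zero => exact ⟨h1, h2⟩
  | succ n ih =>
    rw [Function.iterate_succ_apply]
    apply ih
    · unfold EN
      split_ifs
      · exact h1
      · exact h2
    · unfold EN
      split_ifs
      · exact h2
      · exact (Nat.mod_le _ _).trans h1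

lemma padd (h1 : S_ZADD) {α : Type} [Enc α] {f g : α → ℤ} (hf : PTime f) (hg : PTime g) :
    PTime (fun x => f x + g x) :=
  PTime.comp2 (g := fun a b : ℤ => a + b) h1 hf hg

lemma pmul (h1 : S_ZMUL) {α : Type} [Enc α] {f g : α → ℤ} (hf : PTime f) (hg : PTime g) :
    PTime (fun x => f x * g x) :=
  PTime.comp2 (g := fun a b : ℤ => a * b) h1 hf hg

lemma pdiv (h1 : S_ZDIV) {α : Type} [Enc α] {f g : α → ℤ} (hf : PTime f) (hg : PTime g) :
    PTime (fun x => f x / g x) :=
  PTime.comp2 (g := fun a b : ℤ => a / b) h1 hf hg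

end GCDaux

open GCDaux

theorem gcd_thm (h1 : S_ZADD) (h2 : S_ZMUL) (h3 : S_ZDIV) : S_GCD := by
  have p1 : PTime (fun p : ℤ × ℤ => p.1) := PTime.fst PTime.id
  have p2 : PTime (fun p : ℤ × ℤ => p.2) := PTime.snd PTime.id
  have hstep : PTime EZ := by
    refine PTime.ite (c := fun p : ℤ × ℤ => p.2 = 0) (f := fun p => p)
      (g := fun p => (p.2, p.1 + (-1) * (p.2 * (p.1 / p.2)))) ?_ PTime.id ?_
    · exact PTime.eq p2 (PTime.const (0 : ℤ))
    · exact PTime.pair p2 (padd h1 p1 (pmul h2 (PTime.const (-1 : ℤ)) (pmul h2 p2 (pdiv h3 p1 p2))))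
  have hs : PTime (fun p : ℤ × ℤ => (((p.1.natAbs : ℕ) : ℤ), ((p.2.natAbs : ℕ) : ℤ))) := by
    have q1 : PTime (fun p : ℤ × ℤ => ((p.1.natAbs : ℕ) : ℤ)) :=
      (ptime_zmk (PTime.const false) (ptime_absbits p1)).congr fun p => by
        simp [zmk, num_bits']
    have q2 : PTime (fun p : ℤ × ℤ => ((p.2.natAbs : ℕ) : ℤ)) :=
      (ptime_zmk (PTime.const false) (ptime_absbits p2)).congr fun p => by
        simp [zmk, num_bits']
    exact PTime.pair q1 q2
  have hn : PTime (fun p : ℤ × ℤ => 2 * (p.2.natAbs.bits).length + 1) := by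
    have hl : PTime (fun p : ℤ × ℤ => (p.2.natAbs.bits).length) :=
      PTime.length (ptime_absbits p2)
    have hm : PTime (fun p : ℤ × ℤ => 2 * (p.2.natAbs.bits).length) :=
      PTime.mul (f := fun _ : ℤ × ℤ => 2) (PTime.const 2) hl
    exact PTime.succ hm
  have hit := PTime.iter hstep hs hn (h := fun p => 11 + 4 * sz p)
    ((PB.const 11).add ((PB.const 4).mul PB.sz_self)) (by
      intro p i _
      have e := EZ_iter i (p.1.natAbs, p.2.natAbs)
      simp only at e
      rw [e]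
      set M := max p.1.natAbs p.2.natAbs
      obtain ⟨b1, b2⟩ := EN_le M i (p.1.natAbs, p.2.natAbs) (le_max_left _ _) (le_max_right _ _)
      have c1 := sz_int_le (((EN^[i] (p.1.natAbs, p.2.natAbs)).1 : ℕ) : ℤ)
      have c2 := sz_int_le (((EN^[i] (p.1.natAbs, p.2.natAbs)).2 : ℕ) : ℤ)
      have hM : Nat.size M ≤ zb p.1 + zb p.2 := by
        rcases le_total p.1.natAbs p.2.natAbs with h | h
        · have : M = p.2.natAbs := max_eq_right h
          rw [this]
          unfold zb
          omega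
        · have : M = p.1.natAbs := max_eq_left h
          rw [this]
          unfold zb
          omega
      have d1 : zb (((EN^[i] (p.1.natAbs, p.2.natAbs)).1 : ℕ) : ℤ) ≤ Nat.size M := by
        unfold zb
        rw [Int.natAbs_natCast]
        exact Nat.size_le_size b1
      have d2 : zb (((EN^[i] (p.1.natAbs, p.2.natAbs)).2 : ℕ) : ℤ) ≤ Nat.size M := by
        unfold zb
        rw [Int.natAbs_natCast]
        exact Nat.size_le_size b2
      have e1 := zb_le_sz p.1
      have e2 := zb_le_sz p.2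
      simp only [sz_pair]
      omega)
  refine (PTime.fst hit).congr fun p => ?_
  have e := EZ_iter (2 * (p.2.natAbs.bits).length + 1) (p.1.natAbs, p.2.natAbs)
  simp only at e
  rw [e]
  simp only
  have hd : (EN^[2 * (p.2.natAbs.bits).length + 1] (p.1.natAbs, p.2.natAbs)).2 = 0 := by
    apply EN_done
    rw [Nat.size_eq_bits_len]
    exact Nat.lt_size_self _
  have hg := EN_iter_gcd (2 * (p.2.natAbs.bits).length + 1) (p.1.natAbs, p.2.natAbs)
  rw [hd, Nat.gcd_zero_right] at hg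
  rw [hg]
  rfl

end Pool.HMS
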