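import Pool.Agent.H52.HMS.LBase

/-!
# HMS, module LDET
-/

set_option autoImplicit false

namespace Pool.HMS

open TMLib Finset

namespace LDETaux

/-- bordered index -/
def io (k i a : ℕ) : ℕ := if a < k then a else i

/-- unit lower triangular factor -/
def PM (L : ℕ → ℕ → ℚ) (k i : ℕ) : Matrix (Fin (k + 1)) (Fin (k + 1)) ℚ :=
  fun a l => if (l : ℕ) < k then L (io k i a) l else (if (a : ℕ) < k then 0 else 1)

lemma det_PM (D : ℕ) (G L : ℕ → ℕ → ℚ) (r : ℕ → ℚ) (h : LDL D G L r) (k i : ℕ) (hk : k ≤ D) :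
    (PM L k i).det = 1 := by
  rw [Matrix.det_of_lowerTriangular]
  · refine prod_eq_one fun a _ => ?_
    unfold PM io
    by_cases ha : (a : ℕ) < k
    · rw [if_pos ha, if_pos ha]
      exact h.one a (lt_of_lt_of_le ha hk)
    · rw [if_neg ha, if_neg ha]
  · intro a l hal
    have hal' : a < l := hal
    have hlk : (l : ℕ) ≤ k := Nat.lt_succ_iff.mp l.2
    have hak : (a : ℕ) < k := lt_of_lt_of_le hal' hlk
    unfold PM io
    rw [if_pos hak]
    by_cases hl : (l : ℕ) < k
    · rw [if_pos hl]
      exact h.tri a (lt_of_lt_of_le hak hk) l (lt_of_lt_of_le hl hk) hal'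
    · rw [if_neg hl, if_pos hak]

lemma det_bordered (hL : S_LSCH) (D : ℕ) (G L : ℕ → ℕ → ℚ) (r : ℕ → ℚ) (h : LDL D G L r)
    (k i j : ℕ) (hk : k ≤ D) (hi : i < D) (hj : j < D) :
    (Matrix.of fun a b : Fin (k + 1) => G (io k i a) (io k j b)).det =
      (∏ l ∈ range k, r l) * sch G k i j := by
  obtain ⟨hs, -, -⟩ := hL D G L r h
  have hio : ∀ i < D, ∀ a : Fin (k + 1), io k i a < D := by
    intro i hi a
    unfold io
    split_ifs with ha
    · exact lt_of_lt_of_le ha hk
    · exact hi
  have hfac : (Matrix.of fun a b : Fin (k + 1) => G (io k i a) (io k j b)) =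
      PM L k i * Matrix.diagonal (fun l : Fin (k + 1) => if (l : ℕ) < k then r l else sch G k i j) *
        (PM L k j).transpose := by
    ext a b
    rw [Matrix.mul_apply]
    simp only [Matrix.mul_diagonal, Matrix.transpose_apply, Matrix.of_apply]
    rw [Fin.sum_univ_castSucc]
    have e1 : ∑ l : Fin k, PM L k i a l.castSucc *
        (if ((l.castSucc : Fin (k + 1)) : ℕ) < k then r (l.castSucc : Fin (k + 1)) else
          sch G k i j) * PM L k j b l.castSucc =
        ∑ l ∈ range k, L (io k i a) l * r l * L (io k j b) l := by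
      rw [sum_range]
      refine sum_congr rfl fun l _ => ?_
      unfold PM
      have : ((l.castSucc : Fin (k + 1)) : ℕ) < k := l.2
      rw [if_pos this, if_pos this, if_pos this]
      rfl
    rw [e1]
    rw [h.eq _ (hio i hi a) _ (hio j hj b)]
    have e2 : ∑ l ∈ range D, L (io k i a) l * r l * L (io k j b) l =
        ∑ l ∈ range k, L (io k i a) l * r l * L (io k j b) l +
        ∑ l ∈ Ico k D, L (io k i a) l * r l * L (io k j b) l := by
      rw [range_eq_Ico, range_eq_Ico, sum_Ico_consecutive _ (Nat.zero_le k) hk]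
    rw [e2]
    congr 1
    unfold PM
    have hlast : ¬ ((Fin.last k : Fin (k + 1)) : ℕ) < k := by simp
    rw [if_neg hlast, if_neg hlast, if_neg hlast]
    by_cases ha : (a : ℕ) < k
    · rw [if_pos ha, zero_mul, zero_mul]
      refine sum_eq_zero fun l hl => ?_
      rw [mem_Ico] at hl
      have : io k i a = a := by unfold io; rw [if_pos ha]
      rw [this, h.tri a (lt_of_lt_of_le ha hk) l hl.2 (lt_of_lt_of_le ha hl.1)]
      ring
    · by_cases hb : (b : ℕ) < k
      · rw [if_pos hb, mul_zero]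
        refine sum_eq_zero fun l hl => ?_
        rw [mem_Ico] at hl
        have : io k j b = b := by unfold io; rw [if_pos hb]
        rw [this, h.tri b (lt_of_lt_of_le hb hk) l hl.2 (lt_of_lt_of_le hb hl.1)]
        ring
      · have h1 : io k i a = i := by unfold io; rw [if_neg ha]
        have h2 : io k j b = j := by unfold io; rw [if_neg hb]
        rw [if_neg ha, if_neg hb, h1, h2, ← hs k hk i hi j hj]
        ring
  rw [hfac, Matrix.det_mul, Matrix.det_mul, Matrix.det_transpose, det_PM D G L r h k i hk,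
    det_PM D G L r h k j hk, Matrix.det_diagonal, one_mul, mul_one, Fin.prod_univ_castSucc]
  have hlast : ¬ ((Fin.last k : Fin (k + 1)) : ℕ) < k := by simp
  rw [if_neg hlast]
  congr 1
  rw [prod_range]
  refine prod_congr rfl fun l _ => ?_
  have : ((l.castSucc : Fin (k + 1)) : ℕ) < k := l.2
  rw [if_pos this]
  rfl

lemma det_int {n : ℕ} (A : Matrix (Fin n) (Fin n) ℚ) (hA : ∀ a b, IsI (A a b)) : IsI A.det := by
  choose Z hZ using hA
  refine ⟨(Matrix.of Z).det, ?_⟩
  rw [Int.cast_det]
  congr 1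
  ext a b
  simp [hZ a b]

lemma det_bd {n : ℕ} (A : Matrix (Fin n) (Fin n) ℚ) (M : ℚ) (hA : ∀ a b, |A a b| ≤ M) :
    |A.det| ≤ n.factorial * M ^ n := by
  have := Matrix.det_le (abv := AbsoluteValue.abs) (A := A) (x := M) (fun a b => hA a b)
  simpa [Fintype.card_fin, nsmul_eq_mul] using this

end LDETaux

open LDETaux

theorem ldet_thm (hL : S_LSCH) : S_LDET := by
  intro D G L r M h hint hM hbd
  have hb : ∀ k ≤ D, ∀ i < D, ∀ j < D, IsI ((∏ l ∈ range k, r l) * sch G k i j) ∧
      |(∏ l ∈ range k, r l) * sch G k i j| ≤ (k + 1).factorial * M ^ (k + 1) := by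
    intro k hk i hi j hj
    have hio : ∀ i < D, ∀ a : Fin (k + 1), io k i a < D := by
      intro i hi a
      unfold io
      split_ifs with ha
      · exact lt_of_lt_of_le ha hk
      · exact hi
    rw [← det_bordered hL D G L r h k i j hk hi hj]
    exact ⟨det_int _ fun a b => hint _ (hio i hi a) _ (hio j hj b),
      det_bd _ M fun a b => hbd _ (hio i hi a) _ (hio j hj b)⟩
  have hpos : ∀ k ≤ D, 0 < ∏ l ∈ range k, r l := by
    intro k hk
    refine prod_pos fun l hl => h.pos l (lt_of_lt_of_le (mem_range.mp hl) hk)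
  intro k hk
  have hP : IsI (∏ l ∈ range k, r l) ∧ ∏ l ∈ range k, r l ≤ k.factorial * M ^ k := by
    cases k with
    | zero => simp [IsI.one]
    | succ k =>
      have hkD : k < D := hk
      obtain ⟨h1, h2⟩ := hb k hkD.le k hkD k hkD
      have e : (∏ l ∈ range k, r l) * sch G k k k = ∏ l ∈ range (k + 1), r l := by
        rw [prod_range_succ]
        congr 1
        exact (hL D G L r h).2.1 k hkD
      rw [e] at h1 h2
      exact ⟨h1, (le_abs_self _).trans h2⟩
  refine ⟨hP.1, ?_, hP.2, hb k hk⟩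
  obtain ⟨z, hz⟩ := hP.1
  have h0 := hpos k hk
  rw [hz] at h0 ⊢
  have : 0 < z := by exact_mod_cast h0
  exact_mod_cast this

end Pool.HMS
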