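import Pool.Agent.H52.HMS.LBase

/-!
# HMS, module LPDF
-/

set_option autoImplicit false

namespace Pool.HMS

open TMLib Finset

namespace LPDFaux

/-- quadratic form -/
def Q (D : ℕ) (S : ℕ → ℕ → ℚ) (x : ℕ → ℚ) : ℚ :=
  ∑ i ∈ range D, ∑ j ∈ range D, x i * x j * S i j

lemma Q_eq (D : ℕ) (S : ℕ → ℕ → ℚ) (x : ℕ → ℚ) :
    Q D S x = ∑ i ∈ range D, x i * ∑ j ∈ range D, x j * S i j := by
  unfold Q
  refine sum_congr rfl fun i _ => ?_
  rw [mul_sum]
  refine sum_congr rfl fun j _ => ?_
  ring

lemma sum_sub_ite (D k : ℕ) (hk : k < D) (x f : ℕ → ℚ) (t : ℚ) :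
    ∑ j ∈ range D, (x j - if j = k then t else 0) * f j =
      ∑ j ∈ range D, x j * f j - t * f k := by
  have h : ∀ j ∈ range D, (x j - if j = k then t else 0) * f j =
      x j * f j - if j = k then t * f k else 0 := by
    intro j _
    split_ifs with h
    · rw [h]; ring
    · ring
  rw [sum_congr rfl h, sum_sub_distrib, sum_ite_eq', if_pos (mem_range.mpr hk)]

lemma Q_sub (D k : ℕ) (hk : k < D) (S : ℕ → ℕ → ℚ) (hS : ∀ i < D, ∀ j < D, S i j = S j i)
    (x : ℕ → ℚ) (t : ℚ) :
    Q D S (fun i => x i - if i = k then t else 0) =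
      Q D S x - 2 * t * (∑ j ∈ range D, x j * S k j) + t ^ 2 * S k k := by
  rw [Q_eq, Q_eq]
  have h1 : ∀ i, ∑ j ∈ range D, (x j - if j = k then t else 0) * S i j =
      ∑ j ∈ range D, x j * S i j - t * S i k := fun i => sum_sub_ite D k hk x (S i) t
  simp only [h1]
  rw [sum_sub_ite D k hk x (fun i => ∑ j ∈ range D, x j * S i j - t * S i k) t]
  have h2 : ∑ i ∈ range D, x i * (∑ j ∈ range D, x j * S i j - t * S i k) =
      ∑ i ∈ range D, x i * ∑ j ∈ range D, x j * S i j - t * ∑ i ∈ range D, x i * S k i := by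
    rw [mul_sum, ← sum_sub_distrib]
    refine sum_congr rfl fun i hi => ?_
    rw [hS i (mem_range.mp hi) k hk]
    ring
  rw [h2]
  ring

lemma Q_schur (D k : ℕ) (hk : k < D) (S : ℕ → ℕ → ℚ) (hS : ∀ i < D, ∀ j < D, S i j = S j i)
    (x : ℕ → ℚ) :
    Q D (fun i j => S i j - S i k * S k j / S k k) x =
      Q D S x - (∑ j ∈ range D, x j * S k j) ^ 2 / S k k := by
  rw [Q_eq, Q_eq]
  have h1 : ∀ i, ∑ j ∈ range D, x j * (S i j - S i k * S k j / S k k) =
      ∑ j ∈ range D, x j * S i j - S i k / S k k * ∑ j ∈ range D, x j * S k j := by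
    intro i
    rw [mul_sum, ← sum_sub_distrib]
    refine sum_congr rfl fun j _ => ?_
    ring
  simp only [h1]
  have h2 : ∑ i ∈ range D, x i * (∑ j ∈ range D, x j * S i j -
      S i k / S k k * ∑ j ∈ range D, x j * S k j) =
      ∑ i ∈ range D, x i * ∑ j ∈ range D, x j * S i j -
        (∑ i ∈ range D, x i * S k i) * ((∑ j ∈ range D, x j * S k j) / S k k) := by
    rw [sum_mul, ← sum_sub_distrib]
    refine sum_congr rfl fun i hi => ?_
    rw [hS i (mem_range.mp hi) k hk]
    ring
  rw [h2]
  ring

/-- the inductive package -/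
lemma mainK (D : ℕ) (G : ℕ → ℕ → ℚ) (hsym : ∀ i < D, ∀ j < D, G i j = G j i)
    (hpos : ∀ x : ℕ → ℚ, (∃ i < D, x i ≠ 0) → 0 < Q D G x) :
    ∀ k ≤ D, (∀ i < D, ∀ j < D, sch G k i j = sch G k j i) ∧
      (∀ i < k, ∀ j < D, sch G k i j = 0) ∧
      (∀ x : ℕ → ℚ, (∃ i < D, k ≤ i ∧ x i ≠ 0) → 0 < Q D (sch G k) x) := by
  intro k
  induction k with
  | zero =>
    intro _
    refine ⟨hsym, fun i hi => absurd hi (Nat.not_lt_zero i), ?_⟩
    rintro x ⟨i, hi, _, hx⟩
    exact hpos x ⟨i, hi, hx⟩
  | succ k ih =>
    intro hk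
    have hkD : k < D := hk
    obtain ⟨h1, h2, h3⟩ := ih (Nat.le_of_lt hkD)
    have hkk : 0 < sch G k k k := by
      have h := h3 (fun i => if i = k then 1 else 0) ⟨k, hkD, le_rfl, by simp⟩
      rw [Q_eq] at h
      have e1 : ∀ i, ∑ j ∈ range D, (if j = k then (1 : ℚ) else 0) * sch G k i j =
          sch G k i k := by
        intro i
        have : ∀ j ∈ range D, (if j = k then (1 : ℚ) else 0) * sch G k i j =
            if j = k then sch G k i k else 0 := by
          intro j _
          split_ifs with hj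
          · rw [hj, one_mul]
          · rw [zero_mul]
        rw [sum_congr rfl this, sum_ite_eq', if_pos (mem_range.mpr hkD)]
      simp only [e1] at h
      have e2 : ∑ i ∈ range D, (if i = k then (1 : ℚ) else 0) * sch G k i k = sch G k k k := by
        have : ∀ i ∈ range D, (if i = k then (1 : ℚ) else 0) * sch G k i k =
            if i = k then sch G k k k else 0 := by
          intro i _
          split_ifs with hi
          · rw [hi, one_mul]
          · rw [zero_mul]
        rw [sum_congr rfl this, sum_ite_eq', if_pos (mem_range.mpr hkD)]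
      rwa [e2] at h
    have hs : ∀ i j, sch G (k + 1) i j =
        sch G k i j - sch G k i k * sch G k k j / sch G k k k := fun _ _ => rfl
    refine ⟨?_, ?_, ?_⟩
    · intro i hi j hj
      rw [hs, hs, h1 i hi j hj, h1 i hi k hkD, h1 k hkD j hj]
      ring
    · intro i hi j hj
      rw [hs]
      rcases Nat.lt_succ_iff_lt_or_eq.mp hi with h | h
      · rw [h2 i h j hj, h2 i h k hkD]
        ring
      · rw [h]
        field_simp
        ring
    · rintro x ⟨i, hi, hki, hx⟩
      have e : sch G (k + 1) = fun i j => sch G k i j - sch G k i k * sch G k k j / sch G k k k :=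
        rfl
      rw [e, Q_schur D k hkD _ h1]
      set c := ∑ j ∈ range D, x j * sch G k k j with hc
      have hq := Q_sub D k hkD (sch G k) h1 x (c / sch G k k k)
      rw [← hc] at hq
      have hp := h3 (fun i => x i - if i = k then c / sch G k k k else 0)
        ⟨i, hi, by omega, by
          have : i ≠ k := by omega
          simpa [this] using hx⟩
      rw [hq] at hp
      have e3 : Q D (sch G k) x - 2 * (c / sch G k k k) * c + (c / sch G k k k) ^ 2 * sch G k k k =
          Q D (sch G k) x - c ^ 2 / sch G k k k := by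
        field_simp
        ring
      rwa [e3] at hp

end LPDFaux

open LPDFaux

theorem lpdf_thm : S_LPDF := by
  intro D G hsym hpos
  have hm := mainK D G hsym hpos
  have hr : ∀ k < D, 0 < sch G k k k := by
    intro k hkD
    obtain ⟨_, _, h3⟩ := hm k hkD.le
    have h := h3 (fun i => if i = k then 1 else 0) ⟨k, hkD, le_rfl, by simp⟩
    rw [Q_eq] at h
    have e1 : ∀ i, ∑ j ∈ range D, (if j = k then (1 : ℚ) else 0) * sch G k i j =
        sch G k i k := by
      intro i
      have : ∀ j ∈ range D, (if j = k then (1 : ℚ) else 0) * sch G k i j =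
          if j = k then sch G k i k else 0 := by
        intro j _
        split_ifs with hj
        · rw [hj, one_mul]
        · rw [zero_mul]
      rw [sum_congr rfl this, sum_ite_eq', if_pos (mem_range.mpr hkD)]
    simp only [e1] at h
    have e2 : ∑ i ∈ range D, (if i = k then (1 : ℚ) else 0) * sch G k i k = sch G k k k := by
      have : ∀ i ∈ range D, (if i = k then (1 : ℚ) else 0) * sch G k i k =
          if i = k then sch G k k k else 0 := by
        intro i _
        split_ifs with hi
        · rw [hi, one_mul]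
        · rw [zero_mul]
      rw [sum_congr rfl this, sum_ite_eq', if_pos (mem_range.mpr hkD)]
    rwa [e2] at h
  refine ⟨?_, ?_, ?_, ?_⟩
  · intro i hi
    unfold mu
    exact div_self (hr i hi).ne'
  · intro i hi l hl hil
    unfold mu
    rw [(hm l hl.le).2.1 i hil l hl, zero_div]
  · intro i hi
    exact hr i hi
  · intro i hi j hj
    have h1 : ∀ l ∈ range D, mu G i l * rr G l * mu G j l = sch G l i j - sch G (l + 1) i j := by
      intro l hl
      have hl' := mem_range.mp hl
      have hne := (hr l hl').ne'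
      have hs : sch G (l + 1) i j =
        sch G l i j - sch G l i l * sch G l l j / sch G l l l := rfl
      rw [hs, (hm l hl'.le).1 l hl' j hj]
      unfold mu rr
      field_simp
      ring
    rw [sum_congr rfl h1, sum_range_sub' (fun l => sch G l i j) D, (hm D le_rfl).2.1 i hi j hj]
    simp [sch]

end Pool.HMS
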