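import Pool.Agent.H48.HMS.Stm

/-!
# HMS, module QMK
-/

set_option autoImplicit false

namespace Pool.HMS

open TMLib Polynomial

namespace QMKaux

lemma padd {α : Type} [Enc α] {f : α → ℤ} (hf : PTime f) :
    PTime (fun x => -(f x)) :=
  (ptime_zmk (PTime.not (ptime_isneg hf)) (ptime_absbits hf)).congr fun x => by
    unfold zmk
    rw [num_bits']
    rcases lt_trichotomy (f x) 0 with h | h | h
    · have h1 : decide (f x < 0) = true := by simpa using h
      rw [h1]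
      simp only [Bool.not_true, Bool.false_eq_true, if_false]
      omega
    · simp [h]
    · have h1 : decide (f x < 0) = false := by simp; omega
      rw [h1]
      simp only [Bool.not_false, if_true]
      omega

lemma pmul (h1 : S_ZMUL) {α : Type} [Enc α] {f g : α → ℤ} (hf : PTime f) (hg : PTime g) :
    PTime (fun x => f x * g x) :=
  PTime.comp2 (g := fun a b : ℤ => a * b) h1 hf hg

lemma pdiv (h1 : S_ZDIV) {α : Type} [Enc α] {f g : α → ℤ} (hf : PTime f) (hg : PTime g) :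
    PTime (fun x => f x / g x) :=
  PTime.comp2 (g := fun a b : ℤ => a / b) h1 hf hg

lemma psign {α : Type} [Enc α] {f : α → ℤ} (hf : PTime f) : PTime (fun x => (f x).sign) := by
  have h : PTime (fun x => if f x < 0 then (-1 : ℤ) else (if f x = 0 then 0 else 1)) := by
    refine PTime.ite (ptime_isneg hf) (PTime.const (-1 : ℤ)) ?_
    exact PTime.ite (PTime.eq hf (PTime.const (0 : ℤ))) (PTime.const (0 : ℤ)) (PTime.const (1 : ℤ))
  refine h.congr fun x => ?_
  rcases lt_trichotomy (f x) 0 with h | h | h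
  · rw [if_pos h, Int.sign_eq_neg_one_of_neg h]
  · simp [h]
  · rw [if_neg (by omega), if_neg (by omega), Int.sign_eq_one_of_pos h]

end QMKaux

open QMKaux

theorem qmk_thm (h1 : S_ZMUL) (h2 : S_ZDIV) (h3 : S_GCD) : S_QMK := by
  have p1 : PTime (fun p : ℤ × ℤ => p.1) := PTime.fst PTime.id
  have p2 : PTime (fun p : ℤ × ℤ => p.2) := PTime.snd PTime.id
  have hg : PTime (fun p : ℤ × ℤ => (Int.gcd p.2 p.1 : ℤ)) := by
    have h : PTime (fun p : ℤ × ℤ => (Int.gcd p.1 p.2 : ℤ)) := h3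
    exact h.congr fun p => by rw [Int.gcd_comm]
  have hnum : PTime (fun p : ℤ × ℤ => p.2.sign * p.1 / (Int.gcd p.2 p.1 : ℤ)) :=
    pdiv h2 (pmul h1 (psign p2) p1) hg
  have habs : PTime (fun p : ℤ × ℤ => ((p.2.natAbs : ℕ) : ℤ)) :=
    (ptime_zmk (PTime.const false) (ptime_absbits p2)).congr fun p => by
      simp [zmk, num_bits']
  have hden : PTime (fun p : ℤ × ℤ => if p.2 = 0 then (1 : ℤ) else
      ((p.2.natAbs : ℕ) : ℤ) / (Int.gcd p.2 p.1 : ℤ)) :=
    PTime.ite (PTime.eq p2 (PTime.const (0 : ℤ))) (PTime.const (1 : ℤ)) (pdiv h2 habs hg)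
  have h : PTime (fun p : ℤ × ℤ => (decide (p.2.sign * p.1 / (Int.gcd p.2 p.1 : ℤ) < 0),
      (p.2.sign * p.1 / (Int.gcd p.2 p.1 : ℤ)).natAbs.bits,
      (if p.2 = 0 then (1 : ℤ) else
      ((p.2.natAbs : ℕ) : ℤ) / (Int.gcd p.2 p.1 : ℤ)).natAbs.bits)) :=
    PTime.pair (ptime_isneg hnum) (PTime.pair (ptime_absbits hnum) (ptime_absbits hden))
  obtain ⟨q, T, hq⟩ := h
  refine ⟨q, T, fun a r => ?_⟩
  have e : enc ((a.1 : ℚ) / (a.2 : ℚ)) = enc (decide (a.2.sign * a.1 / (Int.gcd a.2 a.1 : ℤ) < 0),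
      (a.2.sign * a.1 / (Int.gcd a.2 a.1 : ℤ)).natAbs.bits,
      (if a.2 = 0 then (1 : ℤ) else
      ((a.2.natAbs : ℕ) : ℤ) / (Int.gcd a.2 a.1 : ℤ)).natAbs.bits) := by
    rw [enc_rat]
    have e1 : ((a.1 : ℚ) / (a.2 : ℚ)).num = a.2.sign * a.1 / (Int.gcd a.2 a.1 : ℤ) := by
      rw [← Rat.divInt_eq_div, Rat.num_divInt]
    have e2 : ((((a.1 : ℚ) / (a.2 : ℚ)).den : ℕ) : ℤ) = if a.2 = 0 then (1 : ℤ) else
      ((a.2.natAbs : ℕ) : ℤ) / (Int.gcd a.2 a.1 : ℤ) := by
      rw [← Rat.divInt_eq_div, Rat.den_divInt]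
      split_ifs
      · rfl
      · push_cast
        rfl
    rw [← e2, e1, Int.natAbs_natCast]
  rw [e]
  exact hq a r

end Pool.HMS
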